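import Mathlib
import Pool.Agent.H13.LL.Main

/-!
# Strong law of large numbers for the maximum modulus, for every coefficient law

For i.i.d. real coefficients with an arbitrary law, the maximum `M_n` of `|∑_{k=1}^n ξ_k z^k / √k|` over the unit circle
satisfies `M_n / log n → s` almost surely, where `s` is the root mean square of `ξ_1` if `ξ_1` is centred with finite variance
and `s = ∞` in every other case. In the first case the convergence also holds in `L²`. In particular `M_n / log n → 1` in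
probability if and only if `ξ_1` has mean `0` and variance `1`.

* Convergence in probability with a second moment only: truncation at a fixed level, the case of exponential moments
  (`Pool/Agent/H38/LC`), and a crude upper bound `13 τ log n` for centred laws with variance at most `τ²`
  (truncation at `τ √k`, the removed part is summable).
* Variance of `M_n` at most `E ξ² H_n`, so deviations of order `log n` are summable along `⌊exp (q^j)⌋`.
* Between two scales: Doob's maximal inequality above, Fejer means below.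
* Infinite variance: conditionally on the large coefficients, a small ball probability is at most the square root of the small
  ball probability of the difference of two independent copies of the small part.
-/

namespace Pool.Agent.Results.MP_fb643f_pr.StrongLaw

open MeasureTheory ProbabilityTheory Filter Topology

/-- The random polynomial `P_n(z) = ∑_{k=1}^n ξ_k z^k / √k`; here `ξ i` is the coefficient variable
with index `k = i + 1`, `i = 0, …, n - 1`. -/
noncomputable def randPoly {Ω : Type*} (ξ : ℕ → Ω → ℝ) (n : ℕ) (ω : Ω) (z : ℂ) : ℂ :=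
  ∑ i ∈ Finset.range n, ((ξ i ω / √((i : ℝ) + 1) : ℝ) : ℂ) * z ^ (i + 1)

/-- The maximum `M_n` of `|P_n(z)|` over the unit circle `|z| = 1`. -/
noncomputable def maxMod {Ω : Type*} (ξ : ℕ → Ω → ℝ) (n : ℕ) (ω : Ω) : ℝ :=
  ⨆ z : Metric.sphere (0 : ℂ) 1, ‖randPoly ξ n ω z‖

theorem maxMod_eq {Ω : Type*} (ξ : ℕ → Ω → ℝ) (n : ℕ) (ω : Ω) :
    maxMod ξ n ω = H13.LL.Mx n (fun i => ξ i ω) := by
  have e : randPoly ξ n ω = H13.LL.pol n (fun i => H13.LL.wt i * ξ i ω) := by
    funext z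
    unfold randPoly H13.LL.pol H13.LL.wt
    refine Finset.sum_congr rfl fun i _ => ?_
    have e2 : ξ i ω / √((i : ℝ) + 1) = 1 / √((i : ℝ) + 1) * ξ i ω := by ring
    rw [e2]
  unfold maxMod H13.LL.Mx H13.LL.nrm
  rw [e]

theorem measurable_maxMod {Ω : Type*} [MeasurableSpace Ω] {ξ : ℕ → Ω → ℝ} (hm : ∀ k, Measurable (ξ k))
    (n : ℕ) : Measurable (maxMod ξ n) := by
  have e : maxMod ξ n = fun ω => H13.LL.Mx n (fun i => ξ i ω) := funext fun ω => maxMod_eq ξ n ω
  rw [e]
  exact H13.LL.measurable_Mx_comp hm n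

/-- **Strong law for every coefficient law.** -/
theorem result {Ω : Type*} [MeasurableSpace Ω] (P : Measure Ω) [IsProbabilityMeasure P]
    (ξ : ℕ → Ω → ℝ) (hmeas : ∀ k, Measurable (ξ k)) (hindep : iIndepFun ξ P)
    (hident : ∀ k, IdentDistrib (ξ k) (ξ 0) P P) :
    -- (1) mean zero and finite variance: almost surely and in `L²`
    (MemLp (ξ 0) 2 P → ∫ ω, ξ 0 ω ∂P = 0 →
      (∀ᵐ ω ∂P, Tendsto (fun n : ℕ => maxMod ξ n ω / Real.log n) atTop
        (𝓝 √(∫ ω, ξ 0 ω ^ 2 ∂P))) ∧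
      Tendsto (fun n : ℕ => eLpNorm (fun ω => maxMod ξ n ω / Real.log n - √(∫ ω, ξ 0 ω ^ 2 ∂P)) 2 P)
        atTop (𝓝 0)) ∧
    -- (2) every other law
    (¬ (MemLp (ξ 0) 2 P ∧ ∫ ω, ξ 0 ω ∂P = 0) →
      ∀ᵐ ω ∂P, Tendsto (fun n : ℕ => maxMod ξ n ω / Real.log n) atTop atTop) ∧
    -- (3) convergence in probability to `1` exactly for mean zero and variance one
    ((∀ ε : ℝ, 0 < ε → Tendsto
        (fun n : ℕ => P {ω | ε ≤ |maxMod ξ n ω / Real.log n - 1|}) atTop (𝓝 0)) ↔
      MemLp (ξ 0) 2 P ∧ ∫ ω, ξ 0 ω ∂P = 0 ∧ ∫ ω, ξ 0 ω ^ 2 ∂P = 1) ∧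
    -- (4) the question: sub-exponential tails
    (∫ ω, ξ 0 ω ∂P = 0 → ∫ ω, ξ 0 ω ^ 2 ∂P = 1 →
      (∃ c : ℝ, 0 < c ∧ Integrable (fun ω => Real.exp (c * |ξ 0 ω|)) P) →
      ∀ ε : ℝ, 0 < ε → Tendsto
        (fun n : ℕ => P {ω | ε ≤ |maxMod ξ n ω / Real.log n - 1|}) atTop (𝓝 0)) := by
  have hI : H13.LL.IID P ξ := ⟨hmeas, hindep, hident⟩
  have hmm := measurable_maxMod hmeas
  have part1 : MemLp (ξ 0) 2 P → ∫ ω, ξ 0 ω ∂P = 0 →
      (∀ᵐ ω ∂P, Tendsto (fun n : ℕ => maxMod ξ n ω / Real.log n) atTop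
        (𝓝 √(∫ ω, ξ 0 ω ^ 2 ∂P))) ∧
      Tendsto (fun n : ℕ => eLpNorm (fun ω => maxMod ξ n ω / Real.log n - √(∫ ω, ξ 0 ω ^ 2 ∂P)) 2 P)
        atTop (𝓝 0) := by
    intro h2 h0
    have hS : H13.LL.Sq P ξ := { toIID := hI, mem := h2, mean := h0 }
    refine ⟨?_, ?_⟩
    · filter_upwards [H13.LL.strong hS] with ω hω
      refine hω.congr fun n => ?_
      rw [maxMod_eq]
    · have hL := H13.LL.l2_tendsto hS
      have hmem : ∀ n : ℕ, MemLp (fun ω => maxMod ξ n ω / Real.log n - √(∫ ω, ξ 0 ω ^ 2 ∂P)) 2 P := by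
        intro n
        have h3 : MemLp (fun ω => (Real.log n)⁻¹ * H13.LL.Mx n (fun i => ξ i ω)) 2 P :=
          (H13.LL.memLp_Mx hS n).const_mul _
        have h4 := h3.sub (memLp_const (√(∫ ω, ξ 0 ω ^ 2 ∂P)) (p := 2) (μ := P))
        refine h4.ae_eq (Eventually.of_forall fun ω => ?_)
        simp only [Pi.sub_apply]
        rw [maxMod_eq]
        ring
      have e : ∀ n : ℕ, eLpNorm (fun ω => maxMod ξ n ω / Real.log n - √(∫ ω, ξ 0 ω ^ 2 ∂P)) 2 P =
          ENNReal.ofReal (√(∫ ω, (H13.LL.Mx n (fun i => ξ i ω) / Real.log n - H13.LL.sd P ξ) ^ 2 ∂P)) := by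
        intro n
        have e2 : ∫ ω, ‖maxMod ξ n ω / Real.log n - √(∫ ω, ξ 0 ω ^ 2 ∂P)‖ ^ (2 : ENNReal).toReal ∂P =
            ∫ ω, (H13.LL.Mx n (fun i => ξ i ω) / Real.log n - H13.LL.sd P ξ) ^ 2 ∂P := by
          refine integral_congr_ae (Eventually.of_forall fun ω => ?_)
          have e3 : (2 : ENNReal).toReal = ((2 : ℕ) : ℝ) := by norm_num
          simp only [maxMod_eq, H13.LL.sd]
          rw [e3, Real.rpow_natCast, Real.norm_eq_abs, sq_abs]
        rw [(hmem n).eLpNorm_eq_integral_rpow_norm (by norm_num) (by norm_num), e2]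
        congr 1
        rw [Real.sqrt_eq_rpow]
        norm_num
      simp_rw [e]
      have h5 := (Real.continuous_sqrt.tendsto 0).comp hL
      rw [Real.sqrt_zero] at h5
      have h6 := (ENNReal.continuous_ofReal.tendsto 0).comp h5
      rw [ENNReal.ofReal_zero] at h6
      exact h6
  have part2 : ¬ (MemLp (ξ 0) 2 P ∧ ∫ ω, ξ 0 ω ∂P = 0) →
      ∀ᵐ ω ∂P, Tendsto (fun n : ℕ => maxMod ξ n ω / Real.log n) atTop atTop := by
    intro hn
    have h3 : ∀ᵐ ω ∂P, Tendsto (fun n : ℕ => H13.LL.Mx n (fun i => ξ i ω) / Real.log n) atTop atTop := by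
      by_cases h2 : MemLp (ξ 0) 2 P
      · exact H13.LL.shifted hI h2 fun h0 => hn ⟨h2, h0⟩
      · exact H13.LL.infinite hI h2
    filter_upwards [h3] with ω hω
    refine hω.congr fun n => ?_
    rw [maxMod_eq]
  -- almost sure convergence implies convergence in probability
  have toProb : ∀ s : ℝ, (∀ᵐ ω ∂P, Tendsto (fun n : ℕ => maxMod ξ n ω / Real.log n) atTop (𝓝 s)) →
      ∀ ε : ℝ, 0 < ε → Tendsto
        (fun n : ℕ => P {ω | ε ≤ |maxMod ξ n ω / Real.log n - s|}) atTop (𝓝 0) := by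
    intro s hs ε hε
    have h3 := tendstoInMeasure_of_tendsto_ae (μ := P)
      (f := fun (n : ℕ) ω => maxMod ξ n ω / Real.log n) (g := fun _ => s)
      (fun n => ((hmm n).div_const _).aestronglyMeasurable) hs
    rw [tendstoInMeasure_iff_dist] at h3
    exact h3 ε hε
  have part3 : (∀ ε : ℝ, 0 < ε → Tendsto
        (fun n : ℕ => P {ω | ε ≤ |maxMod ξ n ω / Real.log n - 1|}) atTop (𝓝 0)) ↔
      MemLp (ξ 0) 2 P ∧ ∫ ω, ξ 0 ω ∂P = 0 ∧ ∫ ω, ξ 0 ω ^ 2 ∂P = 1 := by
    constructor
    · intro hp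
      -- convergence in probability to `1` gives a subsequence converging almost surely
      have h3 : TendstoInMeasure P (fun (n : ℕ) ω => maxMod ξ n ω / Real.log n) atTop (fun _ => (1 : ℝ)) := by
        rw [tendstoInMeasure_iff_dist]
        exact hp
      obtain ⟨ns, hns, hae⟩ := h3.exists_seq_tendsto_ae
      by_cases hc : MemLp (ξ 0) 2 P ∧ ∫ ω, ξ 0 ω ∂P = 0
      · obtain ⟨h2, h0⟩ := hc
        refine ⟨h2, h0, ?_⟩
        obtain ⟨ω, h4, h5⟩ := ((part1 h2 h0).1.and hae).exists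
        have h6 := tendsto_nhds_unique (h4.comp hns.tendsto_atTop) h5
        rw [Real.sqrt_eq_one] at h6
        exact h6
      · exfalso
        obtain ⟨ω, h4, h5⟩ := ((part2 hc).and hae).exists
        exact not_tendsto_nhds_of_tendsto_atTop (h4.comp hns.tendsto_atTop) 1 h5
    · rintro ⟨h2, h0, h1⟩
      have h3 := (part1 h2 h0).1
      rw [h1, Real.sqrt_one] at h3
      exact toProb 1 h3
  refine ⟨part1, part2, part3, ?_⟩
  rintro h0 h1 ⟨c, hc, hint⟩
  refine part3.2 ⟨?_, h0, h1⟩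
  -- a function with a nonzero integral of its square is square integrable
  rw [memLp_two_iff_integrable_sq (hmeas 0).aestronglyMeasurable]
  by_contra hn
  rw [integral_undef hn] at h1
  exact zero_ne_one h1

end Pool.Agent.Results.MP_fb643f_pr.StrongLaw
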